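import Pool.Agent.H933.EP.Stm
import Pool.Agent.H356.LL.Split

/-!
# P_split2: cut-off operators in the bicommutant, from P_cut2 (helper825)
-/

set_option autoImplicit false
set_option linter.unusedSectionVars false

open MeasureTheory Metric
open scoped Real Topology ENNReal

namespace Pool.Agent.H825.EP

open Pool.Agent.H933.LL Pool.Agent.H933.EP Pool.Agent.H356.LL

/-- the property `Dom` passes to subsets -/
theorem Dom.mono {M : ℂ → ℝ} {U V : Set ℂ} (h : Dom M V) (hUV : U ⊆ V) : Dom M U := by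
  intro I ρ hI hρ
  obtain ⟨C, hC⟩ := h I ρ hI hρ
  exact ⟨C, fun g W z₀ hW h1 h2 h3 h4 => hC g W z₀ hW h1 (h2.trans hUV) h3 h4⟩

theorem p_split2 (hcut : P_cut2) : P_split2 := by
  intro X _ _ _ T hT l r₁ r₂ hr1 hr
  have hT0 := norm_nonneg T
  have hl0 := norm_nonneg l
  have hsub : ann l r₁ r₂ ⊆ ball (0 : ℂ) (‖l‖ + r₂ + 1) := by
    intro z hz
    rw [mem_ball_zero_iff]
    have h1 : ‖z‖ ≤ ‖z - l‖ + ‖l‖ := by
      have h2 := norm_add_le (z - l) l
      rwa [sub_add_cancel] at h2
    have := hz.2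
    linarith
  obtain ⟨h, h1, h2, h3, h4⟩ := hcut (fun z => 1 + ‖resolvent T z‖) l r₁ r₂ hr1 hr
    ((aesm_resolvent T _).norm.aemeasurable.const_add 1)
    (Filter.Eventually.of_forall fun z => by
      have := norm_nonneg (resolvent T z)
      linarith)
    (Dom.mono (hT.2 _) hsub)
  have h5 : IntegrableOn (fun z => ‖h z‖ * ‖resolvent T z‖) (ann l r₁ r₂) := by
    have h6 : Integrable (fun z => ‖h z‖) (volume.restrict (ann l r₁ r₂)) := Integrable.norm h2
    have h7 := Integrable.sub h3 h6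
    refine Integrable.congr h7 (Filter.Eventually.of_forall fun z => ?_)
    simp only [Pi.sub_apply]
    ring
  exact split_core ⟨h1, h2, h5, h4⟩ hT.1 hr1 hr

end Pool.Agent.H825.EP
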